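import Mathlib

/-!
# A quadratic-size set whose difference set avoids the mixed-sign set in `F_p ^ 3`
-/

namespace Pool.Agent.Results.MP_9d9710_co.PlaneFree

open Finset

/-- The positive half `{1, …, (p-1)/2}` of `F_p`. -/
def Pos (p : ℕ) : Set (ZMod p) := {x | 1 ≤ x.val ∧ x.val ≤ (p - 1) / 2}

/-- The mixed-sign set: for some arrangement of the coordinates, one coordinate is `0`, one lies
in `P` and one lies in `-P`. -/
def S (p : ℕ) : Set (Fin 3 → ZMod p) :=
  {x | ∃ σ : Equiv.Perm (Fin 3), x (σ 0) = 0 ∧ x (σ 1) ∈ Pos p ∧ -x (σ 2) ∈ Pos p}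

/-- `A` is `S`-free if no difference of two elements of `A` lies in `S`. -/
def SFree (p : ℕ) (A : Finset (Fin 3 → ZMod p)) : Prop :=
  ∀ a ∈ A, ∀ b ∈ A, a - b ∉ S p

/-- `P` and `-P` are disjoint. -/
lemma not_both {p : ℕ} (hp : 2 < p) {u : ZMod p} (h1 : u ∈ Pos p) (h2 : -u ∈ Pos p) : False := by
  have : NeZero p := ⟨by omega⟩
  obtain ⟨a1, a2⟩ := h1
  obtain ⟨b1, b2⟩ := h2
  have hne : u ≠ 0 := by
    rintro rfl
    simp at a1
  have : NeZero u := ⟨hne⟩
  rw [ZMod.val_neg_of_ne_zero] at b1 b2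
  have := ZMod.val_lt u
  omega

lemma zero_notMem {p : ℕ} (h : (0 : ZMod p) ∈ Pos p) : False := by
  obtain ⟨a1, -⟩ := h
  simp at a1

/-- The plane `x₀ = x₁`. -/
noncomputable def plane (p : ℕ) [NeZero p] : Finset (Fin 3 → ZMod p) :=
  (univ : Finset (ZMod p × ZMod p)).image (fun t => ![t.1, t.1, t.2])

lemma card_plane (p : ℕ) [NeZero p] : (plane p).card = p ^ 2 := by
  rw [plane, Finset.card_image_of_injective]
  · rw [Finset.card_univ, Fintype.card_prod, ZMod.card, sq]
  · intro a b h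
    have h0 := congrFun h 0
    have h2 := congrFun h 2
    simp at h0 h2
    exact Prod.ext h0 h2

lemma plane_free (p : ℕ) [NeZero p] (hp : 2 < p) : SFree p (plane p) := by
  rintro a ha b hb ⟨σ, h0, h1, h2⟩
  obtain ⟨s, -, rfl⟩ := Finset.mem_image.mp ha
  obtain ⟨t, -, rfl⟩ := Finset.mem_image.mp hb
  set c : Fin 3 → ZMod p := ![s.1, s.1, s.2] - ![t.1, t.1, t.2] with hc
  have hc01 : c 0 = c 1 := by simp [hc]
  -- the zero coordinate, the positive coordinate and the negative coordinate are distinct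
  have hne12 : σ 1 ≠ σ 2 := by simp
  have hne01 : σ 0 ≠ σ 1 := by simp
  have hne02 : σ 0 ≠ σ 2 := by simp
  have p1 : c (σ 1) ≠ 0 := by
    intro h; rw [h] at h1; exact zero_notMem h1
  have p2 : c (σ 2) ≠ 0 := by
    intro h; rw [h, neg_zero] at h2; exact zero_notMem h2
  have hcases : ∀ i : Fin 3, i = 0 ∨ i = 1 ∨ i = 2 := by decide
  have hz : c (σ 0) = 0 := h0
  have k1 : c (σ 1) ∈ Pos p := h1
  have k2 : -c (σ 2) ∈ Pos p := h2
  generalize hi : σ 0 = i at *
  generalize hj : σ 1 = j at *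
  generalize hk : σ 2 = k at *
  rcases hcases i with rfl | rfl | rfl
  · -- zero in coordinate 0, so coordinate 1 vanishes too
    rcases hcases j with rfl | rfl | rfl
    · exact hne01 rfl
    · exact p1 (by rw [← hc01]; exact hz)
    · rcases hcases k with rfl | rfl | rfl
      · exact hne02 rfl
      · exact p2 (by rw [← hc01]; exact hz)
      · exact hne12 rfl
  · rcases hcases j with rfl | rfl | rfl
    · exact p1 (by rw [hc01]; exact hz)
    · exact hne01 rfl
    · rcases hcases k with rfl | rfl | rfl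
      · exact p2 (by rw [hc01]; exact hz)
      · exact hne02 rfl
      · exact hne12 rfl
  · rcases hcases j with rfl | rfl | rfl
    · rcases hcases k with rfl | rfl | rfl
      · exact hne12 rfl
      · rw [← hc01] at k2
        exact not_both hp k1 k2
      · exact hne02 rfl
    · rcases hcases k with rfl | rfl | rfl
      · rw [hc01] at k2
        exact not_both hp k1 k2
      · exact hne12 rfl
      · exact hne02 rfl
    · exact hne01 rfl

/-- For every odd prime `p` there is an `S`-free set of exactly `p ^ 2` elements; hence no power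
saving bound `|A| ≤ p ^ (2 - δ)` holds for all large primes. -/
theorem result :
    (∀ p : ℕ, p.Prime → p ≠ 2 → ∃ A : Finset (Fin 3 → ZMod p), SFree p A ∧ A.card = p ^ 2) ∧
    ¬ (∃ δ : ℝ, 0 < δ ∧ ∃ p₀ : ℕ, ∀ p : ℕ, p.Prime → p ≠ 2 → p₀ ≤ p →
      ∀ A : Finset (Fin 3 → ZMod p), SFree p A → (A.card : ℝ) ≤ (p : ℝ) ^ (2 - δ)) := by
  have h1 : ∀ p : ℕ, p.Prime → p ≠ 2 →
      ∃ A : Finset (Fin 3 → ZMod p), SFree p A ∧ A.card = p ^ 2 := by
    intro p hp h2
    have : NeZero p := ⟨hp.ne_zero⟩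
    have : 2 < p := lt_of_le_of_ne hp.two_le (Ne.symm h2)
    exact ⟨plane p, plane_free p this, card_plane p⟩
  refine ⟨h1, ?_⟩
  rintro ⟨δ, hδ, p₀, h⟩
  obtain ⟨p, hple, hp⟩ := Nat.exists_infinite_primes (max p₀ 3)
  have hp3 : 3 ≤ p := le_trans (le_max_right _ _) hple
  have hp2 : p ≠ 2 := by omega
  obtain ⟨A, hA, hcard⟩ := h1 p hp hp2
  have h3 := h p hp hp2 (le_trans (le_max_left _ _) hple) A hA
  rw [hcard] at h3
  have hp1 : (1 : ℝ) < p := by exact_mod_cast (by omega : 1 < p)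
  have h4 : (p : ℝ) ^ (2 - δ) < (p : ℝ) ^ (2 : ℝ) :=
    Real.rpow_lt_rpow_of_exponent_lt hp1 (by linarith)
  have h5 : (p : ℝ) ^ (2 : ℝ) = ((p ^ 2 : ℕ) : ℝ) := by
    rw [Nat.cast_pow]
    exact_mod_cast Real.rpow_natCast (p : ℝ) 2
  rw [h5] at h4
  linarith

end Pool.Agent.Results.MP_9d9710_co.PlaneFree
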